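import Pool.Agent.helper61.Y2.Spec

/-!
# Y0A: the strings of a slalom form a thin set
-/

set_option autoImplicit false

namespace H61.Y2

open H61.Yorioka Cardinal

theorem Y0A_grow (k : ℕ) : ∃ L0 : ℕ, ∀ L ≥ L0, (L + 1) ^ k ≤ 2 ^ L := by
  have h := tendsto_pow_const_div_const_pow_of_one_lt k (r := (2 : ℝ)) (by norm_num)
  obtain ⟨L0, hL0⟩ := Filter.eventually_atTop.mp (h.eventually_lt_const (show (0 : ℝ) < 1 / 2 by norm_num))
  refine ⟨L0, fun L hL => ?_⟩
  have h1 := hL0 (L + 1) (by omega)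
  have h2 : (0 : ℝ) < 2 ^ (L + 1) := by positivity
  rw [div_lt_iff₀ h2] at h1
  have h3 : ((L + 1 : ℕ) : ℝ) ^ k < 2 ^ L := by
    rw [pow_succ] at h1
    linarith
  have h4 : (((L + 1) ^ k : ℕ) : ℝ) < ((2 ^ L : ℕ) : ℝ) := by
    push_cast
    push_cast at h3
    exact h3
  exact (by exact_mod_cast h4 : (L + 1) ^ k < 2 ^ L).le

theorem Y0A_KK (N : ℕ) (j : ℕ) (h : KK j < N) : j ∈ Finset.range (Nat.log 2 N + 1) := by
  rw [Finset.mem_range]
  have h1 : 2 ^ j ≤ Nat.log 2 N := by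
    apply Nat.le_log_of_pow_le (by norm_num)
    exact h.le
  have h2 : j < 2 ^ j := Nat.lt_two_pow_self
  omega

theorem Y0A : Y0A_stmt := by
  classical
  intro f hf A hA k
  rcases Nat.eq_zero_or_pos k with rfl | hk
  · exact ⟨1, fun N hN => by simpa using hN⟩
  obtain ⟨m, hm⟩ := hA.wid (2 * k)
  obtain ⟨L0, hL0⟩ := Y0A_grow (2 * k)
  refine ⟨2 ^ L0 + ∑ j ∈ Finset.range m, (A j).card ^ (2 * k), fun N hN => ?_⟩
  set F : Finset ℕ := (Finset.range (Nat.log 2 N + 1)).filter (fun j => KK j < N) with hF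
  have hFcard : F.card ≤ Nat.log 2 N + 1 := by
    refine (Finset.card_le_card (Finset.filter_subset _ _)).trans ?_
    rw [Finset.card_range]
  have hN1 : 2 ^ L0 ≤ N := le_trans (Nat.le_add_right _ _) hN
  have hN0 : N ≠ 0 := by
    have : 0 < 2 ^ L0 := by positivity
    omega
  have hlog : L0 ≤ Nat.log 2 N := Nat.le_log_of_pow_le (by norm_num) hN1
  have hJ : F.card ^ (2 * k) ≤ N :=
    calc F.card ^ (2 * k) ≤ (Nat.log 2 N + 1) ^ (2 * k) := Nat.pow_le_pow_left hFcard _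
      _ ≤ 2 ^ Nat.log 2 N := hL0 _ hlog
      _ ≤ N := Nat.pow_log_le_self 2 hN0
  have ha : ∀ j ∈ F, (A j).card ^ (2 * k) ≤ N := by
    intro j hj
    rcases Nat.lt_or_ge j m with hlt | hge
    · have h1 : (A j).card ^ (2 * k) ≤ ∑ j ∈ Finset.range m, (A j).card ^ (2 * k) :=
        Finset.single_le_sum (f := fun j => (A j).card ^ (2 * k)) (fun i _ => Nat.zero_le _) (Finset.mem_range.mpr hlt)
      exact h1.trans (le_trans (Nat.le_add_left _ _) hN)
    · exact (hm j hge).trans (Finset.mem_filter.mp hj).2.le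
  have hc : cn (UN A) (f N) ≤ ∑ j ∈ F, (A j).card := by
    have hsub : {t | t ∈ UN A ∧ t.length < f N} ⊆ ((F.biUnion A : Finset (List Bool)) : Set (List Bool)) := by
      rintro t ⟨⟨j, hj⟩, ht⟩
      rw [Finset.mem_coe, Finset.mem_biUnion]
      have h1 : KK j < N := by
        rw [hA.len j t hj] at ht
        exact hf.lt_iff_lt.mp ht
      exact ⟨j, Finset.mem_filter.mpr ⟨Y0A_KK N j h1, h1⟩, hj⟩
    calc cn (UN A) (f N) ≤ ((F.biUnion A : Finset (List Bool)) : Set (List Bool)).ncard :=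
          Set.ncard_le_ncard hsub (Finset.finite_toSet _)
      _ = (F.biUnion A).card := Set.ncard_coe_finset _
      _ ≤ ∑ j ∈ F, (A j).card := Finset.card_biUnion_le
  obtain ⟨n, hn⟩ : ∃ n, 2 * k = n + 1 := ⟨2 * k - 1, by omega⟩
  have hpow : (∑ j ∈ F, (A j).card) ^ (2 * k) ≤ N * N := by
    calc (∑ j ∈ F, (A j).card) ^ (2 * k) ≤ F.card ^ n * ∑ j ∈ F, (A j).card ^ (n + 1) := by
          rw [hn]
          exact pow_sum_le_card_mul_sum_pow (fun j _ => Nat.zero_le _) n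
      _ ≤ F.card ^ n * (F.card * N) := by
          refine Nat.mul_le_mul_left _ ?_
          calc ∑ j ∈ F, (A j).card ^ (n + 1) ≤ F.card • N :=
                Finset.sum_le_card_nsmul F _ N (fun j hj => by rw [← hn]; exact ha j hj)
            _ = F.card * N := by simp
      _ = F.card ^ (2 * k) * N := by rw [hn]; ring
      _ ≤ N * N := Nat.mul_le_mul_right _ hJ
  have hfin : (cn (UN A) (f N) ^ k) ^ 2 ≤ N ^ 2 := by
    calc (cn (UN A) (f N) ^ k) ^ 2 = cn (UN A) (f N) ^ (2 * k) := by rw [← pow_mul, mul_comm]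
      _ ≤ (∑ j ∈ F, (A j).card) ^ (2 * k) := Nat.pow_le_pow_left hc _
      _ ≤ N * N := hpow
      _ = N ^ 2 := by ring
  exact (Nat.pow_le_pow_iff_left (by norm_num)).mp hfin

end H61.Y2
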